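import Pool.Agent.helper20.FX.All

namespace Pool.Agent.Results.MP_37e5fa_nt.FixedMultiplier

/-- Divisors `k * 2 ^ n + 1` of the Fermat number `2 ^ (2 ^ m) + 1` with a fixed odd multiplier
`k > 1`: there are at most `C (2 ^ m log k) ^ (2/5 + ε)` of them, and the sum of their exponents
`n` is at most `C (2 ^ m log k) ^ (5/6 + ε)`, where `C` depends only on `ε`. -/
theorem result (ε : ℝ) (hε : 0 < ε) :
    ∃ C : ℝ, 0 < C ∧ ∀ (m k : ℕ) (U : Finset ℕ), Odd k → 1 < k →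
      (∀ n ∈ U, k * 2 ^ n + 1 ∣ 2 ^ 2 ^ m + 1) →
      (U.card : ℝ) ≤ C * (2 ^ m * Real.log k) ^ (2 / 5 + ε) ∧
        ∑ n ∈ U, (n : ℝ) ≤ C * (2 ^ m * Real.log k) ^ (5 / 6 + ε) := by
  obtain ⟨C, hC, h⟩ := Pool.Agent.FXM.main ε hε
  refine ⟨C, hC, fun m k U hk hk1 hU => ?_⟩
  have h1 := h (2 ^ m) k U hk hk1 (by positivity) hU
  push_cast at h1
  exact h1

end Pool.Agent.Results.MP_37e5fa_nt.FixedMultiplier
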