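import Pool.Agent.helper20.FX.All

namespace Pool.Agent.Results.MP_a70bdc_nt.FixedMultiplier

/-- Divisors `k * 2 ^ r + 1` of `n ^ n + 1`, `n = 2 ^ a`, with a fixed odd multiplier `k > 1`: there
are at most `C (n log₂ n log k) ^ (2/5 + ε)` of them (`log₂ n = a`), and the sum of their exponents
`r` is at most `C (n log₂ n log k) ^ (5/6 + ε)`, where `C` depends only on `ε`. -/
theorem result (ε : ℝ) (hε : 0 < ε) :
    ∃ C : ℝ, 0 < C ∧ ∀ (a n k : ℕ) (U : Finset ℕ), n = 2 ^ a → Odd k → 1 < k →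
      (∀ r ∈ U, k * 2 ^ r + 1 ∣ n ^ n + 1) →
      (U.card : ℝ) ≤ C * (n * a * Real.log k) ^ (2 / 5 + ε) ∧
        ∑ r ∈ U, (r : ℝ) ≤ C * (n * a * Real.log k) ^ (5 / 6 + ε) := by
  obtain ⟨C, hC, h⟩ := Pool.Agent.FXM.main ε hε
  refine ⟨C, hC, fun a n k U hn hk hk1 hU => ?_⟩
  rcases Nat.eq_zero_or_pos a with ha | ha
  · have hUe : U = ∅ := by
      rw [Finset.eq_empty_iff_forall_notMem]
      intro r hr
      have h1 := hU r hr
      rw [hn, ha, pow_zero, one_pow] at h1
      have h2 := Nat.le_of_dvd (by norm_num) h1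
      have h3 : 1 ≤ 2 ^ r := Nat.one_le_two_pow
      nlinarith
    have hk0 : (0 : ℝ) ≤ Real.log k := Real.log_nonneg (by exact_mod_cast hk1.le)
    rw [hUe, Finset.card_empty, Finset.sum_empty, Nat.cast_zero]
    exact ⟨by positivity, by positivity⟩
  · have hM : 0 < n * a := by rw [hn]; positivity
    have hE : n ^ n + 1 = 2 ^ (n * a) + 1 := by
      rw [mul_comm, pow_mul, ← hn]
    have h1 := h (n * a) k U hk hk1 hM (fun r hr => by rw [← hE]; exact hU r hr)
    push_cast at h1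
    exact h1

end Pool.Agent.Results.MP_a70bdc_nt.FixedMultiplier
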