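import Pool.Agent.helper36.UT.Final

set_option autoImplicit false

/-!
# True universal sentences do not prove that infinitely many Fermat numbers are composite

`UnivTh` is the set of all universal first order sentences true in the integers, in the language with `0, 1, -, +, *, <`,
`2 ^ x`, case distinction, the floor of `x / c` for every constant `c`, the floor of `x / 2 ^ y`, all bitwise Boolean
operations, number and sum of the binary digits.
-/

namespace Pool.Agent.Results.MP_37e5fa_nt.UniversalSentences

open Filter FirstOrder FirstOrder.Language Pool.Agent.UnivT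

theorem result :
    ¬ (UnivTh ⊨ᵇ infinitelyManyComposite) ∧
    (ℤ ⊨ infinitelyManyComposite ↔ {n : ℕ | ¬ (Nat.fermatNumber n).Prime}.Infinite) ∧
    (∀ A : List (Lb.Term (Fin 1) × Lb.Term (Fin 1) × Lb.Term (Fin 1)), ∃ c : ℤ, ∀ᶠ H : ℕ in atTop, ∀ t ∈ A,
      ∀ n x y : ℤ, n = t.1.realize (fun _ => (tow H : ℤ)) → x = t.2.1.realize (fun _ => (tow H : ℤ)) →
        y = t.2.2.realize (fun _ => (tow H : ℤ)) → c < n → 1 < x → 1 < y → x * y ≠ 2 ^ (2 ^ n.toNat) + 1) :=
  ⟨pf_FOA, pf_MEA.1, pf_HER⟩

end Pool.Agent.Results.MP_37e5fa_nt.UniversalSentences
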