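import Pool.Agent.helper36.UT.Final

set_option autoImplicit false

/-!
# True universal sentences do not prove that infinitely many numbers `n ^ n + 1`, `n = 2 ^ (2 ^ s)`, are composite

`UnivTh` is the set of all universal first order sentences true in the integers, in the language with `0, 1, -, +, *, <`,
`2 ^ x`, case distinction, the floor of `x / c` for every constant `c`, the floor of `x / 2 ^ y`, all bitwise Boolean
operations, number and sum of the binary digits.
-/

namespace Pool.Agent.Results.MP_a70bdc_nt.UniversalSentences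

open Filter FirstOrder FirstOrder.Language Pool.Agent.UnivT

theorem result :
    ¬ (UnivTh ⊨ᵇ infinitelyManyCompositeNN) ∧
    (ℤ ⊨ infinitelyManyCompositeNN ↔ {s : ℕ | ¬ ((2 ^ 2 ^ s) ^ (2 ^ 2 ^ s) + 1 : ℕ).Prime}.Infinite) ∧
    (∀ A : List (Lb.Term (Fin 1) × Lb.Term (Fin 1) × Lb.Term (Fin 1)), ∃ c : ℕ, ∀ᶠ H : ℕ in atTop, ∀ t ∈ A,
      ∀ (s n : ℕ) (x y : ℤ), (s : ℤ) = t.1.realize (fun _ => (tow H : ℤ)) → x = t.2.1.realize (fun _ => (tow H : ℤ)) →
        y = t.2.2.realize (fun _ => (tow H : ℤ)) → c < s → n = 2 ^ (2 ^ s) → 1 < x → 1 < y → x * y ≠ (n : ℤ) ^ n + 1) :=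
  ⟨pf_FOB, pf_MEA.2, pf_HERN⟩

end Pool.Agent.Results.MP_a70bdc_nt.UniversalSentences
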